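import Pool.Agent.Lib.NilT.Base
import Pool.Agent.Lib.NilU.Base

/-!
# `lap` in the form `LAP` of the library `NilU`
-/

set_option autoImplicit false

universe u v w

namespace Pool.Agent.Lib.NilT

open Pool.Agent.Lib.MP_16fe43_al
open MulAction (stabilizer)
open Matrix (fromBlocks fromRows fromCols vecMul)

variable {G : Type u} [Group G] {X : Type w} [MulAction G X]

theorem lrq_of_lr {Q : X → Prop} {k : ℕ} : ∀ {I J : Type u} [Fintype I] [DecidableEq I]
    {x : I → X} {A : Matrix I J (MonoidAlgebra ℤ G)}, LR G Q k I J x A →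
      NilU.LRq G Q k I J x A := by
  induction k with
  | zero => exact fun h => h
  | succ k ih =>
    intro I J _ _ x A h
    obtain ⟨K, _, _, z, B, hz, hB, hex, hres⟩ := h
    exact ⟨K, _, _, z, B, hz, hB, hex, ih hres⟩

theorem lap_ax : NilU.LAP G (X := X) (AX G) := by
  intro I J L _ _ _ _ _ x hx M l _ E hE hEM
  obtain ⟨K, C, _, _, _, _, z, zc, B, P, T, k, h1, h1', h2, h3, h4, h5, h6, h7, h8, h9⟩ :=
    lap x hx M l E hE hEM
  refine ⟨K, inferInstance, inferInstance, z, P, T, C, inferInstance, inferInstance, zc, B, k, h1,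
    h1', h3, h6, h2, h7, h5, h4, lrq_of_lr h9, fun v hv => ?_⟩
  obtain ⟨t, ht⟩ := h8 v hv
  exact ⟨t, ht.symm⟩

end Pool.Agent.Lib.NilT
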